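import Pool.Agent.HMT.All

/-! Infinitely many pairs of mates for every hereditary graph property. -/

namespace Pool.Agent.Old09e7.HereditaryProperties

open Pool.Agent.HMT

/-- Let `P` be a property of finite graphs (closed under isomorphism) which is hereditary: every
induced subgraph of a graph in `P` is in `P`. Then there are pairs of non-isomorphic graphs of the
same, arbitrarily large, order with the same Harary polynomial. -/
theorem result (P : GProp)
    (h : ∀ (V : Type) [Finite V] (G : SimpleGraph V) (B : Set V), P.mem G → P.mem (G.induce B)) :
    ∀ N : ℕ, ∃ n, N ≤ n ∧ ∃ G H : SimpleGraph (Fin n),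
      ¬ Nonempty (G ≃g H) ∧ harary P G = harary P H :=
  Fin.cod P h

end Pool.Agent.Old09e7.HereditaryProperties
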