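import Pool.Agent.HMT.All

/-! Infinitely many pairs of mates for every graph property which does not see the shape of the
pendant trees of very sparse graphs (or of their complements). -/

namespace Pool.Agent.Old09e7.InsensitiveProperties

open Pool.Agent.HMT

/-- Let `P` be a property of finite graphs (closed under isomorphism) such that for thin graphs
(bipartite, no cycle of length `≤ g`, at most `(1 + 1/g) n` edges) of order `n > s` membership in
`P` depends only on the order, the number of edges and the 2-core, or such that this holds for the
property `P.co` of the complements. Then there are pairs of non-isomorphic graphs of the same,
arbitrarily large, order with the same Harary polynomial. -/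
theorem result (P : GProp) (g s : ℕ) (h : Insens P g s ∨ Insens P.co g s) :
    ∀ N : ℕ, ∃ n, N ≤ n ∧ ∃ G H : SimpleGraph (Fin n),
      ¬ Nonempty (G ≃g H) ∧ harary P G = harary P H :=
  Fin.mai P g s h

end Pool.Agent.Old09e7.InsensitiveProperties
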